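import Mathlib
import Pool.Agent.L7h19.FT.Inst
import Pool.Agent.L7h19.FT.Parts
import Pool.Agent.L7h56.FT.Cq

/-!
# All moments of `2 ^ rank` in polynomial families with full rational 2-torsion, in short intervals

Let `A, B` be polynomials with integer coefficients such that `A B (A - B)` is squarefree over `ℚ`,
and `E_t : y² = x (x - A(t)) (x - B(t))`. For every integer `k ≥ 0` and `ε > 0`, over the integers
`t` of any interval `[u, v] ⊆ [-X, X]` of length at least `X ^ ε`,

* the average of `2 ^ (k (rank E_t - e_t))` is bounded, where `e_t = max (0, δ_0, δ_1, δ_2)` and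
  `δ_c` is the number of the odd primes dividing the `c`-th of the numbers `A(t)`, `B(t)`,
  `A(t) - B(t)` at which the reduction is split multiplicative minus the number of the primes
  dividing the two others (the Tamagawa ratios of the three 2-isogenies);
* if `2 ^ k (n_c + q_c) ≤ 2 (n_c' + n_c'')` for the three numbers `n_c` of the irreducible factors of
  `A`, `B`, `A - B` (and `q_c` of these factors force split reduction), then the average of
  `2 ^ (k rank E_t)` is bounded.
-/

namespace Pool.Agent.Results.MP_157626_nt.FullTwoTorsionMoments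

open Finset Polynomial

/-- the curve `y² = x (x - A) (x - B)` over `ℚ` -/
def E (A B : ℤ) : WeierstrassCurve ℚ := ⟨0, -((A : ℚ) + B), 0, (A : ℚ) * B, 0⟩

/-- the number of the primes which divide the integer `n` -/
def omega (n : ℤ) : ℕ := n.natAbs.primeFactors.card

/-- the number of the odd primes `p` which divide `n` such that `κ` is a nonzero square modulo `p`
(the Legendre symbol is `1`) -/
def split (κ n : ℤ) : ℕ :=
  (n.natAbs.primeFactors.filter (fun p => p ≠ 2 ∧ jacobiSym κ p = 1)).card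

/-- `e = max (0, δ_0, δ_1, δ_2)` for the curve `y² = x (x - A) (x - B)` -/
def excess (A B : ℤ) : ℤ :=
  max 0 (max ((split (-B) A : ℤ) - omega B - omega (A - B))
    (max ((split (-A) B : ℤ) - omega A - omega (A - B))
      ((split A (A - B) : ℤ) - omega A - omega B)))

/-- the three polynomials `A`, `B`, `A - B` -/
noncomputable def F (A B : ℤ[X]) : Fin 3 → ℤ[X] := ![A, B, A - B]

/-- the polynomials `-B`, `-A`, `A`: at a prime which divides the value of `F A B c` (and no other)
the multiplicative reduction is split if the value of `kappa A B c` is a square modulo the prime -/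
noncomputable def kappa (A B : ℤ[X]) : Fin 3 → ℤ[X] := ![-B, -A, A]

/-- the irreducible factors over `ℚ` (with multiplicity) -/
noncomputable def factors (g : ℤ[X]) : Multiset ℚ[X] :=
  UniqueFactorizationMonoid.normalizedFactors (g.map (Int.castRingHom ℚ))

/-- the number `n_c` of the irreducible factors of `F A B c` -/
noncomputable def n (A B : ℤ[X]) (c : Fin 3) : ℕ := (factors (F A B c)).card

open Classical in
/-- the number `q_c` of the irreducible factors of `F A B c` modulo which `kappa A B c` is a square -/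
noncomputable def q (A B : ℤ[X]) (c : Fin 3) : ℕ := ((factors (F A B c)).filter
  (fun p => ∃ h : ℚ[X], p ∣ (kappa A B c).map (Int.castRingHom ℚ) - h ^ 2)).card

lemma excess_eq (A B : ℤ) : ((Pool.Agent.L7h19.FT.ez ∅ A B : ℕ) : ℤ) = excess A B := by
  have h1 : (univ.filter (fun c : Fin 3 => c ∉ (∅ : Finset (Fin 3)))) = {0, 1, 2} := by decide
  unfold Pool.Agent.L7h19.FT.ez
  rw [h1, sup_insert, sup_insert, sup_singleton]
  have e0 : Pool.Agent.L7h19.FT.dz A B 0 = (split (-B) A : ℤ) - omega B - omega (A - B) := rfl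
  have e1 : Pool.Agent.L7h19.FT.dz A B 1 = (split (-A) B : ℤ) - omega A - omega (A - B) := rfl
  have e2 : Pool.Agent.L7h19.FT.dz A B 2 = (split A (A - B) : ℤ) - omega A - omega B := rfl
  rw [e0, e1, e2]
  unfold excess
  generalize (split (-B) A : ℤ) - omega B - omega (A - B) = x
  generalize (split (-A) B : ℤ) - omega A - omega (A - B) = y
  generalize (split A (A - B) : ℤ) - omega A - omega B = w
  simp only [Nat.max_eq_max]
  omega

open Pool.Agent.L7h19.FT Pool.Agent.L7h19.IS in
lemma sum_mu {A B : ℤ[X]} (h : Squarefree ((A * B * (A - B)).map (Int.castRingHom ℚ)))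
    (c : Fin 3) :
    ∑ f ∈ SF (Fp A B c), mu f (kap A B c) = ((n A B c : ℝ) + q A B c) / 2 := by
  classical
  have h1 := Fp_sqf h c
  have h2 : (SF (Fp A B c)).card = n A B c := card_SF h1
  have h3 := Pool.Agent.L7h56.FT.s_CQ (Fp A B c) (kap A B c) h1
  have hk : kap A B c = kappa A B c := by
    fin_cases c <;> rfl
  have h4 : ((SF (Fp A B c)).filter (fun f => Sqr f (kap A B c))).card = q A B c := by
    rw [h3, hk]
    rfl
  rw [← h2, ← h4]
  have h5 : ∀ f ∈ SF (Fp A B c), mu f (kap A B c) =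
      (1 + if Sqr f (kap A B c) then 1 else 0 : ℝ) / 2 := by
    intro f _
    unfold mu
    split_ifs <;> norm_num
  rw [sum_congr rfl h5, ← sum_div, sum_add_distrib, sum_const, nsmul_eq_mul, mul_one, sum_boole]

/-- All moments of `2 ^ (rank - e)`, and of `2 ^ rank`, in the family
`y² = x (x - A(t)) (x - B(t))` over short intervals. -/
theorem result (A B : ℤ[X]) (h : Squarefree ((A * B * (A - B)).map (Int.castRingHom ℚ))) (ε : ℝ)
    (hε : 0 < ε) (k : ℕ) :
    ∃ C : ℝ, ∀ (X : ℕ) (u v : ℤ), 3 ≤ X → -(X : ℤ) ≤ u → v ≤ X → (X : ℝ) ^ ε ≤ (v : ℝ) - u →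
      (∑ t ∈ (Icc u v).filter (fun t : ℤ => A.eval t * B.eval t * (A.eval t - B.eval t) ≠ 0),
        (2 : ℝ) ^ ((k : ℝ) * ((Module.finrank ℤ (E (A.eval t) (B.eval t)).toAffine.Point : ℝ) -
          (excess (A.eval t) (B.eval t) : ℝ))) ≤ C * ((v : ℝ) - u)) ∧
      ((∀ c, 2 ^ k * (n A B c + q A B c) ≤ 2 * ∑ c' ∈ univ.erase c, n A B c') →
        ∑ t ∈ (Icc u v).filter (fun t : ℤ => A.eval t * B.eval t * (A.eval t - B.eval t) ≠ 0),
          (2 : ℝ) ^ (k * Module.finrank ℤ (E (A.eval t) (B.eval t)).toAffine.Point) ≤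
        C * ((v : ℝ) - u)) := by
  classical
  have hlen : ∀ (X : ℕ) (u v : ℤ), 3 ≤ X → (X : ℝ) ^ ε ≤ (v : ℝ) - u →
      u ≤ v ∧ (0 : ℝ) ≤ (v : ℝ) - u ∧
      ((((Icc u v).filter (fun t : ℤ => A.eval t * B.eval t * (A.eval t - B.eval t) ≠ 0)).card :
        ℕ) : ℝ) ≤ 2 * ((v : ℝ) - u) := by
    intro X u v hX huv
    have hXr : (1 : ℝ) ≤ X := by
      have : (3 : ℝ) ≤ X := by exact_mod_cast hX
      linarith
    have h1 : (1 : ℝ) ≤ (v : ℝ) - u := (Real.one_le_rpow hXr hε.le).trans huv
    have h2 : (1 : ℤ) ≤ v - u := by exact_mod_cast h1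
    refine ⟨by omega, by linarith, ?_⟩
    have h3 : ((Icc u v).filter (fun t : ℤ =>
        A.eval t * B.eval t * (A.eval t - B.eval t) ≠ 0)).card ≤ (Icc u v).card :=
      card_le_card (filter_subset _ _)
    rw [Int.card_Icc] at h3
    have h4 : ((((Icc u v).filter (fun t : ℤ =>
        A.eval t * B.eval t * (A.eval t - B.eval t) ≠ 0)).card : ℕ) : ℤ) ≤ v - u + 1 := by omega
    have h5 : ((((Icc u v).filter (fun t : ℤ =>
        A.eval t * B.eval t * (A.eval t - B.eval t) ≠ 0)).card : ℕ) : ℝ) ≤ (v : ℝ) - u + 1 := by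
      exact_mod_cast h4
    linarith
  rcases Nat.eq_zero_or_pos k with hk | hk
  · subst hk
    refine ⟨2, fun X u v hX hu hv huv => ?_⟩
    obtain ⟨_, _, h3⟩ := hlen X u v hX huv
    refine ⟨le_trans (le_of_eq ?_) h3, fun _ => le_trans (le_of_eq ?_) h3⟩
    · rw [sum_congr rfl fun t _ => by rw [Nat.cast_zero, zero_mul, Real.rpow_zero], sum_const,
        nsmul_eq_mul, mul_one]
    · rw [sum_congr rfl fun t _ => by rw [zero_mul, pow_zero], sum_const, nsmul_eq_mul, mul_one]
  · obtain ⟨C1, hC10, hC1⟩ := Pool.Agent.L7h19.FT.momF Pool.Agent.L7h19.FT.parts h k hk ∅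
      (fun c hc => absurd hc (notMem_empty c)) ε hε
    have h2 : ∃ C2 : ℝ, 0 ≤ C2 ∧ ((∀ c, 2 ^ k * (n A B c + q A B c) ≤
        2 * ∑ c' ∈ univ.erase c, n A B c') → ∀ (X : ℕ) (u v : ℤ), 1 ≤ X → u.natAbs ≤ X →
        v.natAbs ≤ X → (X : ℝ) ^ ε ≤ (v : ℝ) - u →
        ∑ t ∈ (Icc u v).filter (fun t : ℤ => A.eval t * B.eval t * (A.eval t - B.eval t) ≠ 0),
          ((2 : ℝ) ^ ((Module.finrank ℤ
            (Pool.Agent.W262.RK.EAB (A.eval t) (B.eval t)).toAffine.Point : ℕ) -
            (Pool.Agent.L7h19.FT.ez univ (A.eval t) (B.eval t) : ℝ) : ℝ)) ^ k ≤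
          C2 * ((v : ℝ) - u)) := by
      by_cases hn : ∀ c, 2 ^ k * (n A B c + q A B c) ≤ 2 * ∑ c' ∈ univ.erase c, n A B c'
      · obtain ⟨C2, hC20, hC2⟩ := Pool.Agent.L7h19.FT.momF Pool.Agent.L7h19.FT.parts h k hk univ
          (fun c _ => by
            rw [sum_mu h c]
            have h1 := hn c
            have h1' : (2 : ℝ) ^ k * ((n A B c : ℝ) + q A B c) ≤
                2 * ∑ c' ∈ univ.erase c, (n A B c' : ℝ) := by exact_mod_cast h1
            have h3 : ∑ c' ∈ univ.erase c, ((Pool.Agent.L7h19.IS.SF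
                (Pool.Agent.L7h19.FT.Fp A B c')).card : ℝ) =
                ∑ c' ∈ univ.erase c, (n A B c' : ℝ) := by
              refine sum_congr rfl fun c' _ => ?_
              rw [Pool.Agent.L7h19.IS.card_SF (Pool.Agent.L7h19.FT.Fp_sqf h c')]
              rfl
            rw [h3]
            linarith) ε hε
        exact ⟨C2, hC20, fun _ => hC2⟩
      · exact ⟨0, le_rfl, fun h' => absurd h' hn⟩
    obtain ⟨C2, hC20, hC2⟩ := h2
    refine ⟨C1 + C2, fun X u v hX hu hv huv => ?_⟩
    obtain ⟨huv1, hw, -⟩ := hlen X u v hX huv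
    refine ⟨?_, fun hn => ?_⟩
    · have h3 := hC1 X u v (by omega) (by omega) (by omega) huv
      refine (le_trans (le_of_eq ?_) h3).trans (mul_le_mul_of_nonneg_right (by linarith) hw)
      refine sum_congr rfl fun t _ => ?_
      rw [mul_comm, Real.rpow_mul_natCast (by norm_num), ← excess_eq]
      push_cast
      rfl
    · have h3 := hC2 hn X u v (by omega) (by omega) (by omega) huv
      refine (le_trans (le_of_eq ?_) h3).trans (mul_le_mul_of_nonneg_right (by linarith) hw)
      refine sum_congr rfl fun t _ => ?_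
      have h4 : Pool.Agent.L7h19.FT.ez univ (A.eval t) (B.eval t) = 0 := by
        unfold Pool.Agent.L7h19.FT.ez
        rw [filter_false_of_mem (fun c _ h => h (mem_univ c)), sup_empty]
        rfl
      rw [h4, Nat.cast_zero, sub_zero, Real.rpow_natCast, mul_comm k, pow_mul]
      rfl

end Pool.Agent.Results.MP_157626_nt.FullTwoTorsionMoments
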