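import Mathlib
import Pool.Agent.L7h19.RJ.Cls

/-!
# Joint moments of `2 ^ rank` in families with full 2-torsion

Finitely many families `E_i(t) : y² = x (x - F_{i,0}(t)) (x - F_{i,1}(t))`, `i ∈ I`, where
`F_{i,k}` is a constant times the product of the linear forms of the set `T i` (common factors,
these may be shared by the families in any way) and of the linear forms of the set `S i k`,
`F_{i,0} - F_{i,1} = F_{i,2}`, and for each `i` the sets `S i 0`, `S i 1`, `S i 2` have the same
number of elements. Then the average over `|t| ≤ X` of the product of the `2 ^ rank E_i(t)` is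
bounded.
-/

namespace Pool.Agent.Results.MP_157626_nt.JointMoments

open Finset

/-- the curve `y² = x (x - A) (x - B)` over `ℚ` -/
def E (A B : ℤ) : WeierstrassCurve ℚ := ⟨0, -((A : ℚ) + B), 0, (A : ℚ) * B, 0⟩

/-- `F(t) = c * ∏_{j ∈ T} (α j * t + β j) * ∏_{j ∈ S} (α j * t + β j)` -/
def F {J : Type} (α β : J → ℤ) (c : ℤ) (T S : Finset J) (t : ℤ) : ℤ :=
  c * (∏ j ∈ T, (α j * t + β j)) * ∏ j ∈ S, (α j * t + β j)

/-- The average of the product of the `2 ^ rank` of finitely many families is bounded. -/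
theorem result (I J : Type) [Fintype I] [Fintype J] (α β : J → ℤ) (a : I → Fin 3 → ℤ)
    (T : I → Finset J) (S : I → Fin 3 → Finset J) (n : I → ℕ)
    (hα : ∀ j, α j ≠ 0) (hαβ : ∀ j l, j ≠ l → α j * β l ≠ α l * β j)
    (ha : ∀ i k, a i k ≠ 0) (hn : ∀ i k, (S i k).card = n i)
    (hST : ∀ i k i', Disjoint (S i k) (T i'))
    (hSS : ∀ i k i' k', (i, k) ≠ (i', k') → Disjoint (S i k) (S i' k'))
    (hF : ∀ i (t : ℤ), F α β (a i 0) (T i) (S i 0) t - F α β (a i 1) (T i) (S i 1) t =
      F α β (a i 2) (T i) (S i 2) t) :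
    ∃ C : ℝ, ∀ X : ℕ, 1 ≤ X →
      ∑ t ∈ Icc (-(X : ℤ)) X, ∏ i, (2 : ℝ) ^ Module.finrank ℤ
        (E (F α β (a i 0) (T i) (S i 0) t) (F α β (a i 1) (T i) (S i 1) t)).toAffine.Point ≤
      C * X := by
  classical
  obtain ⟨C, hC⟩ := Pool.Agent.L7h19.RJ.fin_sets (∅ : Finset J) T S n
    (fun i k => hST i k i) (fun i k k' h => hSS i k i k' (fun h' => h (Prod.mk.inj h').2))
    (fun i i' hii k j hj _ => ⟨disjoint_left.1 (hST i k i') hj,
      fun k' => disjoint_left.1 (hSS i k i' k' (fun h' => hii (Prod.mk.inj h').1)) hj⟩)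
    (fun i k => by rw [sdiff_empty]; exact hn i k) a α β ha hα hαβ (fun i t => hF i t)
  refine ⟨C, fun X hX => ?_⟩
  have h := hC X hX
  rw [card_empty, pow_zero, one_mul, filter_true_of_mem (fun t _ j hj => by simp at hj)] at h
  exact h

end Pool.Agent.Results.MP_157626_nt.JointMoments
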