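import Mathlib
import Pool.Agent.L7h19.RP.NCls
import Pool.Agent.L7h19.RP.AllParts
import Pool.Agent.L7h23.RP.StFree
import Pool.Agent.L7h50.UP.Up
import Pool.Agent.L7h50.UP.Up0
import Pool.Agent.L7h97.RP.StComb

/-!
# Joint moments of `2 ^ rank` in polynomial families with full 2-torsion, in short intervals

Finitely many families `E_i(t) : y² = x (x - F_{i,0}(t)) (x - F_{i,1}(t))`, `i ∈ I`, where
`F_{i,k}` is a nonzero constant times the product of the irreducible polynomials of the set `T i`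
(common factors, these may be shared by the families in any way) and of the irreducible polynomials
of the set `S i k`, and `F_{i,0} - F_{i,1} = F_{i,2}`. Let `P` be a set, possibly empty, of the
polynomials (they need not occur in the `F_{i,k}`). Let `n_{i,k}` be the number of elements of
`S i k` outside `P`, and `q_{i,k}` the number of those `f_j` among them such that `F_{i,k'}` or
`-F_{i,k'}` is a square in `ℚ[t] / (f_j)` for some `k' ≠ k` (usually there are none). Suppose that
`n_{i,k} + q_{i,k}` is at most the sum of the two other numbers `n_{i,k'}`. Then, for every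
`ε > 0`, the sum of the product of the `2 ^ rank E_i(t)` over the integers `t` of any interval
`[u, v] ⊆ [-X, X]` of length at least `X ^ ε` at which all the polynomials of `P` have prime values
is `O((v - u) / (log X) ^ |P|)`. For `P = ∅` the sum is over all `t`, and its average is bounded.
-/

namespace Pool.Agent.Results.MP_157626_nt.PolynomialFamilies

open Finset Polynomial

/-- the curve `y² = x (x - A) (x - B)` over `ℚ` -/
def E (A B : ℤ) : WeierstrassCurve ℚ := ⟨0, -((A : ℚ) + B), 0, (A : ℚ) * B, 0⟩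

/-- `F = c * ∏_{j ∈ T} f_j * ∏_{j ∈ S} f_j` -/
noncomputable def F {J : Type} (f : J → ℤ[X]) (c : ℤ) (T S : Finset J) : ℤ[X] :=
  C c * (∏ j ∈ T, f j) * ∏ j ∈ S, f j

/-- the image of `G` in `ℚ[t] / (g)` is a square -/
def SquareMod (g G : ℤ[X]) : Prop :=
  IsSquare (AdjoinRoot.mk (g.map (Int.castRingHom ℚ)) (G.map (Int.castRingHom ℚ)))

open Classical in
/-- the elements `j` of `S k` outside `P` such that `F_{k'}` or `-F_{k'}` is a square in
`ℚ[t] / (f_j)` for some `k' ≠ k` -/
noncomputable def Q {J : Type} [DecidableEq J] (f : J → ℤ[X]) (P T : Finset J) (a : Fin 3 → ℤ)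
    (S : Fin 3 → Finset J) (k : Fin 3) : Finset J :=
  (S k \ P).filter (fun j => ∃ k', k' ≠ k ∧
    (SquareMod (f j) (F f (a k') T (S k')) ∨ SquareMod (f j) (-(F f (a k') T (S k')))))

/-- The joint moments of the `2 ^ rank` of finitely many families over short intervals, over all `t`
or over the `t` with prime values of the polynomials of `P`. -/
theorem result (I J : Type) [Fintype I] [Fintype J] [DecidableEq J] (f : J → ℤ[X])
    (P : Finset J) (a : I → Fin 3 → ℤ) (T : I → Finset J) (S : I → Fin 3 → Finset J)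
    (hf : ∀ j, Irreducible (f j)) (hd : ∀ j, 0 < (f j).natDegree)
    (hnd : ∀ j l, j ≠ l → ¬ Associated (f j) (f l))
    (ha : ∀ i k, a i k ≠ 0)
    (hn : ∀ i k, (S i k \ P).card + (Q f P (T i) (a i) (S i) k).card ≤
      ∑ k' ∈ univ.erase k, (S i k' \ P).card)
    (hST : ∀ i k, Disjoint (S i k) (T i))
    (hSS : ∀ i k k', k ≠ k' → Disjoint (S i k) (S i k'))
    (hex : ∀ i i', i ≠ i' → ∀ k, ∀ j ∈ S i k, j ∉ P → j ∉ T i' ∧ ∀ k', j ∉ S i' k')
    (hF : ∀ i, F f (a i 0) (T i) (S i 0) - F f (a i 1) (T i) (S i 1) =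
      F f (a i 2) (T i) (S i 2)) (ε : ℝ) (hε : 0 < ε) :
    ∃ C : ℝ, ∀ (X : ℕ) (u v : ℤ), 2 ≤ X → -(X : ℤ) ≤ u → v ≤ X →
      (X : ℝ) ^ ε ≤ (v : ℝ) - u →
      ∑ t ∈ (Icc u v).filter (fun t => ∀ j ∈ P, ((f j).eval t).natAbs.Prime),
        ∏ i, (2 : ℝ) ^ Module.finrank ℤ
          (E ((F f (a i 0) (T i) (S i 0)).eval t)
            ((F f (a i 1) (T i) (S i 1)).eval t)).toAffine.Point ≤
      C * ((v : ℝ) - u) / (Real.log X) ^ P.card := by
  classical
  obtain ⟨C, _, hC⟩ := Pool.Agent.L7h19.RP.short_sets_n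
    ⟨Pool.Agent.L7h50.UP.stUp, Pool.Agent.L7h50.UP.stUp0, Pool.Agent.L7h19.RP.parts.bw,
      Pool.Agent.L7h23.RP.stFree, Pool.Agent.L7h97.RP.stComb, Pool.Agent.L7h19.RP.parts.sub,
      Pool.Agent.L7h19.RP.parts.mod, Pool.Agent.L7h19.RP.parts.rank⟩ P T S a f hST hSS hex
    (fun i k => by
      refine le_trans (le_of_eq ?_) (hn i k)
      congr 2) ha hf hd hnd (fun i => hF i) ε hε
  refine ⟨C, fun X u v hX hu hv huv => ?_⟩
  have hXr : (2 : ℝ) ≤ X := by exact_mod_cast hX
  have hlog : 0 < (Real.log X) ^ P.card := pow_pos (Real.log_pos (by linarith)) _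
  have h := hC X u v (by omega) hu hv huv
  rw [le_div_iff₀ hlog, mul_comm]
  refine le_trans (le_of_eq ?_) h
  congr 1

end Pool.Agent.Results.MP_157626_nt.PolynomialFamilies
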