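import Mathlib
import Pool.Agent.L7h19.RJ.Cls

/-!
# Joint moments of `2 ^ rank` in families with full 2-torsion at prime arguments

Finitely many families `E_i(t) : y² = x (x - F_{i,0}(t)) (x - F_{i,1}(t))`, `i ∈ I`, where
`F_{i,k}` is a constant times the product of the linear forms of the set `T i` (common factors)
and of the linear forms of the set `S i k`, and `F_{i,0} - F_{i,1} = F_{i,2}`. Let `P` be a
nonempty set of the linear forms (they need not occur in the `F_{i,k}`). The sum of the product of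
the `2 ^ rank E_i(t)` over the `t` with `|t| ≤ X` such that all the forms of `P` have prime values
is `O(X / (log X) ^ |P|)`.
-/

namespace Pool.Agent.Results.MP_157626_nt.PrimeArguments

open Finset

/-- the curve `y² = x (x - A) (x - B)` over `ℚ` -/
def E (A B : ℤ) : WeierstrassCurve ℚ := ⟨0, -((A : ℚ) + B), 0, (A : ℚ) * B, 0⟩

/-- `F(t) = c * ∏_{j ∈ T} (α j * t + β j) * ∏_{j ∈ S} (α j * t + β j)` -/
def F {J : Type} (α β : J → ℤ) (c : ℤ) (T S : Finset J) (t : ℤ) : ℤ :=
  c * (∏ j ∈ T, (α j * t + β j)) * ∏ j ∈ S, (α j * t + β j)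

/-- The average of the product of the `2 ^ rank` at prime arguments is bounded. -/
theorem result (I J : Type) [Fintype I] [Fintype J] [DecidableEq J] (α β : J → ℤ)
    (P : Finset J) (hP : P.Nonempty) (a : I → Fin 3 → ℤ) (T : I → Finset J)
    (S : I → Fin 3 → Finset J) (n : I → ℕ)
    (hα : ∀ j, α j ≠ 0) (hαβ : ∀ j l, j ≠ l → α j * β l ≠ α l * β j)
    (ha : ∀ i k, a i k ≠ 0) (hn : ∀ i k, (S i k \ P).card = n i)
    (hST : ∀ i k, Disjoint (S i k) (T i))
    (hSS : ∀ i k k', k ≠ k' → Disjoint (S i k) (S i k'))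
    (hex : ∀ i i', i ≠ i' → ∀ k, ∀ j ∈ S i k, j ∉ P → j ∉ T i' ∧ ∀ k', j ∉ S i' k')
    (hF : ∀ i (t : ℤ), F α β (a i 0) (T i) (S i 0) t - F α β (a i 1) (T i) (S i 1) t =
      F α β (a i 2) (T i) (S i 2) t) :
    ∃ C : ℝ, ∀ X : ℕ, 2 ≤ X →
      ∑ t ∈ (Icc (-(X : ℤ)) X).filter (fun t => ∀ j ∈ P, (α j * t + β j).natAbs.Prime),
        ∏ i, (2 : ℝ) ^ Module.finrank ℤ
          (E (F α β (a i 0) (T i) (S i 0) t) (F α β (a i 1) (T i) (S i 1) t)).toAffine.Point ≤
      C * X / (Real.log X) ^ P.card := by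
  classical
  have _ := hP
  obtain ⟨C, hC⟩ := Pool.Agent.L7h19.RJ.fin_sets P T S n hST hSS hex hn a α β ha hα hαβ
    (fun i t => hF i t)
  refine ⟨C, fun X hX => ?_⟩
  have hXr : (2 : ℝ) ≤ X := by exact_mod_cast hX
  have hlog : 0 < (Real.log X) ^ P.card := pow_pos (Real.log_pos (by linarith)) _
  have h := hC X (by omega)
  rw [le_div_iff₀ hlog, mul_comm]
  refine le_trans (le_of_eq ?_) h
  congr 1

end Pool.Agent.Results.MP_157626_nt.PrimeArguments
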