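import Mathlib
import Pool.Agent.L7h19.RH.All

/-!
# The second moment of `2 ^ rank` over binary families of odd degree

Let `F_k(u, w) = a_k ∏ (α_{k,i} u + β_{k,i} w) ^ μ_{k,i}`, `k = 0, 1, 2`, be binary forms of the same
odd degree with `F_0 - F_1 = F_2`, each a product of `n` linear forms to odd powers, the `3 n` linear
forms being pairwise non-proportional. Then the average of `4 ^ rank` over the elliptic curves
`y² = x (x - D F_0(u, w)) (x - D F_1(u, w))`, `|u|, |w| ≤ X`, is bounded by `C * 4096 ^ ω(D)`, where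
`C` does not depend on `X` and on the twist `D`.
-/

set_option autoImplicit false

namespace Pool.Agent.Results.MP_157626_nt.SecondMomentBinaryForms

open Finset

/-- the curve `y² = x (x - A) (x - B)` over `ℚ` -/
def E (A B : ℤ) : WeierstrassCurve ℚ := ⟨0, -((A : ℚ) + B), 0, (A : ℚ) * B, 0⟩

/-- `F_k(u, w) = a_k ∏ (α_{k,i} u + β_{k,i} w) ^ μ_{k,i}` -/
def F {n : ℕ} (a : Fin 3 → ℤ) (μ : Fin 3 → Fin n → ℕ) (α β : Fin 3 → Fin n → ℤ) (k : Fin 3)
    (u w : ℤ) : ℤ := a k * ∏ i, (α k i * u + β k i * w) ^ μ k i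

open Pool.Agent.L7h19.RH Pool.Agent.W307.RT

/-- the classes -/
def cls {n : ℕ} (j : Fin 3 × Fin n) : Fin 3 := j.1

lemma fc_eq {n : ℕ} (k : Fin 3) (f : Fin 3 × Fin n → ℤ) :
    ∏ l ∈ fc (c4 (cls (n := n))) k, f l = ∏ i, f (k, i) := by
  have h : fc (c4 (cls (n := n))) k = univ.image (fun i : Fin n => (k, i)) := by
    ext ⟨l, i⟩
    unfold fc c4 cls
    rw [mem_filter, mem_image]
    constructor
    · rintro ⟨_, h⟩
      have h1 : l = k := Fin.castSucc_injective 3 h
      exact ⟨i, mem_univ _, by rw [h1]⟩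
    · rintro ⟨i', _, h⟩
      rw [Prod.mk.injEq] at h
      exact ⟨mem_univ _, by rw [← h.1]⟩
  rw [h, prod_image]
  intro i _ j _ hij
  exact (Prod.mk.inj hij).2

lemma fc_sum {n : ℕ} (k : Fin 3) (f : Fin 3 × Fin n → ℕ) :
    ∑ l ∈ fc (c4 (cls (n := n))) k, f l = ∑ i, f (k, i) := by
  have h : fc (c4 (cls (n := n))) k = univ.image (fun i : Fin n => (k, i)) := by
    ext ⟨l, i⟩
    unfold fc c4 cls
    rw [mem_filter, mem_image]
    constructor
    · rintro ⟨_, h⟩
      have h1 : l = k := Fin.castSucc_injective 3 h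
      exact ⟨i, mem_univ _, by rw [h1]⟩
    · rintro ⟨i', _, h⟩
      rw [Prod.mk.injEq] at h
      exact ⟨mem_univ _, by rw [← h.1]⟩
  rw [h, sum_image]
  intro i _ j _ hij
  exact (Prod.mk.inj hij).2

/-- **Theorem.** The average of `4 ^ rank` over the box is bounded, uniformly in the twist up to a
factor `4096 ^ ω(D)`. -/
theorem result {n d : ℕ} (hd : Odd d) (a : Fin 3 → ℤ) (ha : ∀ k, a k ≠ 0)
    (μ : Fin 3 → Fin n → ℕ) (hμ : ∀ k i, Odd (μ k i)) (hdeg : ∀ k, ∑ i, μ k i = d)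
    (α β : Fin 3 → Fin n → ℤ)
    (hR : ∀ k i l j, (k, i) ≠ (l, j) → α k i * β l j ≠ α l j * β k i)
    (hF : ∀ u w : ℤ, F a μ α β 0 u w - F a μ α β 1 u w = F a μ α β 2 u w) :
    ∃ C : ℝ, ∀ D : ℤ, D ≠ 0 → ∀ X : ℕ, 1 ≤ X →
      ∑ t ∈ (Icc (-(X : ℤ)) X ×ˢ Icc (-(X : ℤ)) X).filter (fun t : ℤ × ℤ =>
        ∀ k, F a μ α β k t.1 t.2 ≠ 0),
      (4 : ℝ) ^ Module.finrank ℤ (E (D * F a μ α β 0 t.1 t.2)
        (D * F a μ α β 1 t.1 t.2)).toAffine.Point ≤
      C * 4096 ^ D.natAbs.primeFactors.card * (X : ℝ) ^ 2 := by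
  classical
  have hFM : ∀ u v : ℤ, ∀ k, FM (c4 (cls (n := n))) a (fun j => μ j.1 j.2)
      (fv (fun j => α j.1 j.2) (fun j => β j.1 j.2) u v) k = F a μ α β k u v := by
    intro u v k
    unfold FM F
    rw [fc_eq]
    rfl
  obtain ⟨C, -, hC⟩ := allh (cls (n := n)) n (fun c => by
      have h : (univ.filter (fun j : Fin 3 × Fin n => cls j = c)) =
          univ.image (fun i : Fin n => (c, i)) := by
        ext ⟨l, i⟩
        unfold cls
        rw [mem_filter, mem_image]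
        constructor
        · rintro ⟨_, h⟩
          exact ⟨i, mem_univ _, by rw [← h]⟩
        · rintro ⟨i', _, h⟩
          rw [Prod.mk.injEq] at h
          exact ⟨mem_univ _, h.1.symm⟩
      rw [h, card_image_of_injective _ (fun i j hij => (Prod.mk.inj hij).2), card_univ,
        Fintype.card_fin]) a (fun j => μ j.1 j.2) (fun j => α j.1 j.2) (fun j => β j.1 j.2) ha
    (fun j => hμ _ _)
    (fun j l hjl => by
      unfold Pool.Agent.W262.RK.Res
      exact sub_ne_zero.2 (hR j.1 j.2 l.1 l.2 hjl)) d hd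
    (fun k => by rw [fc_sum]; exact hdeg k)
    (fun u v => by rw [hFM, hFM, hFM]; exact hF u v)
  refine ⟨C, fun D hD X hX => ?_⟩
  have h := hC D hD X hX
  refine le_trans (le_of_eq ?_) (h.trans (le_of_eq (by ring)))
  apply sum_congr
  · ext t
    rw [mem_filter, mem_filter]
    apply and_congr Iff.rfl
    constructor
    · intro h1 j hj
      apply h1 j.1
      unfold F
      rw [prod_eq_zero (mem_univ j.2), mul_zero]
      have h2 : α j.1 j.2 * t.1 + β j.1 j.2 * t.2 = 0 := hj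
      rw [h2, zero_pow (hμ _ _).pos.ne']
    · intro h1 k
      unfold F
      refine mul_ne_zero (ha k) (prod_ne_zero_iff.2 fun i _ => pow_ne_zero _ ?_)
      exact h1 (k, i)
  · intro t _
    unfold R1
    rw [hFM, hFM]
    rfl

end Pool.Agent.Results.MP_157626_nt.SecondMomentBinaryForms
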