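import Mathlib
import Pool.Agent.L7h19.IT.All3
import Pool.Agent.L7h19.RP.AllParts
import Pool.Agent.L7h23.RP.StFree
import Pool.Agent.L7h50.UP.Up
import Pool.Agent.L7h56.IT.Des3
import Pool.Agent.L7h56.IT.Exp3
import Pool.Agent.L7h60.IS.Tk
import Pool.Agent.L7h65.IT.Exp4
import Pool.Agent.L7h89.IT.Rk3
import Pool.Agent.L7h89.IT.Ava

/-!
# The rank on average in polynomial families with a rational 2-torsion point, in short intervals

Let `a, b` be polynomials with integer coefficients such that `b` and `a² - 4 b` are squarefree over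
`ℚ` (common factors are allowed), `E_t : y² = x (x² + a(t) x + b(t))`. For every `ε > 0`, over the
integers `t` of any interval `[u, v] ⊆ [-X, X]` of length at least `X ^ ε`,

* the average of `2 ^ (rank E_t - |ω(b(t)) - ω(a(t)² - 4 b(t))|)` is bounded; in particular, in every
  family `y² = x³ + b(t) x` the average of `2 ^ rank` is bounded;
* the average of `rank E_t` is at most `|n - n'| log log X + O(√(log log X))`, where `n` and `n'` are
  the numbers of the irreducible factors of `b` and of `a² - 4 b`.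
-/

namespace Pool.Agent.L7h19.Old.TwoTorsionPointFirst

open Finset Polynomial

/-- the curve `y² = x (x² + A x + B)` over `ℚ` -/
def E (A B : ℤ) : WeierstrassCurve ℚ := ⟨0, (A : ℚ), 0, (B : ℚ), 0⟩

/-- the number of the primes which divide the integer `n` -/
def omega (n : ℤ) : ℕ := n.natAbs.primeFactors.card

/-- the number of the irreducible factors of `g` over `ℚ` (with multiplicity) -/
noncomputable def numFactors (g : ℤ[X]) : ℕ :=
  (UniqueFactorizationMonoid.normalizedFactors (g.map (Int.castRingHom ℚ))).card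

lemma omega_four (n : ℤ) (hn : n ≠ 0) : |(omega n : ℝ) - (omega (-4 * n) : ℝ)| ≤ 1 := by
  unfold omega
  have h4 : (-4 * n).natAbs = 4 * n.natAbs := by
    rw [Int.natAbs_mul]
    rfl
  have hn' : n.natAbs ≠ 0 := Int.natAbs_ne_zero.2 hn
  have h2 : (4 : ℕ).primeFactors = {2} := by
    rw [show (4 : ℕ) = 2 ^ 2 from rfl, Nat.primeFactors_prime_pow (by norm_num) Nat.prime_two]
  rw [h4, Nat.primeFactors_mul (by norm_num) hn', h2]
  have e1 : (({2} : Finset ℕ) ∪ n.natAbs.primeFactors).card ≤ 1 + n.natAbs.primeFactors.card :=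
    (card_union_le _ _).trans (by rw [card_singleton])
  have e2 : n.natAbs.primeFactors.card ≤ (({2} : Finset ℕ) ∪ n.natAbs.primeFactors).card :=
    card_le_card subset_union_right
  have e1' : ((({2} : Finset ℕ) ∪ n.natAbs.primeFactors).card : ℝ) ≤
      1 + (n.natAbs.primeFactors.card : ℝ) := by exact_mod_cast e1
  have e2' : (n.natAbs.primeFactors.card : ℝ) ≤
      ((({2} : Finset ℕ) ∪ n.natAbs.primeFactors).card : ℝ) := by exact_mod_cast e2
  rw [abs_le]
  constructor <;> linarith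

/-- The exponential and the first moment of the rank in the family `y² = x (x² + a(t) x + b(t))` over
short intervals. -/
theorem result (a b : ℤ[X]) (hb : Squarefree (b.map (Int.castRingHom ℚ)))
    (hc : Squarefree ((a ^ 2 - 4 * b).map (Int.castRingHom ℚ))) (ε : ℝ) (hε : 0 < ε) :
    ∃ C : ℝ, ∀ (X : ℕ) (u v : ℤ), 3 ≤ X → -(X : ℤ) ≤ u → v ≤ X → (X : ℝ) ^ ε ≤ (v : ℝ) - u →
      (∑ t ∈ (Icc u v).filter (fun t : ℤ => b.eval t * (a.eval t ^ 2 - 4 * b.eval t) ≠ 0),
        (2 : ℝ) ^ ((Module.finrank ℤ (E (a.eval t) (b.eval t)).toAffine.Point : ℝ) -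
          |(omega (b.eval t) : ℝ) - (omega (a.eval t ^ 2 - 4 * b.eval t) : ℝ)|) ≤
        C * ((v : ℝ) - u)) ∧
      (∑ t ∈ (Icc u v).filter (fun t : ℤ => b.eval t * (a.eval t ^ 2 - 4 * b.eval t) ≠ 0),
        (Module.finrank ℤ (E (a.eval t) (b.eval t)).toAffine.Point : ℝ) ≤
        (|(numFactors b : ℝ) - (numFactors (a ^ 2 - 4 * b) : ℝ)| * Real.log (Real.log X) +
          C * √(Real.log (Real.log X))) * ((v : ℝ) - u)) ∧
      (a = 0 → ∑ t ∈ (Icc u v).filter (fun t : ℤ => b.eval t ≠ 0),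
        (2 : ℝ) ^ (Module.finrank ℤ (E 0 (b.eval t)).toAffine.Point) ≤ C * ((v : ℝ) - u)) := by
  obtain ⟨C, hC⟩ := Pool.Agent.L7h19.IT.allI3
    (Pool.Agent.L7h89.IT.rk3_of Pool.Agent.L7h56.IT.s_DES3) Pool.Agent.L7h56.IT.s_EXP3
    Pool.Agent.L7h65.IT.s_EXP4 Pool.Agent.L7h89.IT.s_AVA Pool.Agent.L7h89.IT.s_AVS
    Pool.Agent.L7h60.IS.s_TK Pool.Agent.L7h50.UP.stUp
    Pool.Agent.L7h19.RP.parts.bw Pool.Agent.L7h23.RP.stFree a b hb hc ε hε
  refine ⟨2 * |C|, fun X u v hX hu hv huv => ?_⟩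
  have hXr : (1 : ℝ) ≤ X := by
    have : (3 : ℝ) ≤ X := by exact_mod_cast hX
    linarith
  have h1 : (1 : ℝ) ≤ (v : ℝ) - u := (Real.one_le_rpow hXr hε.le).trans huv
  have h2 : (1 : ℤ) ≤ v - u := by exact_mod_cast h1
  have h := hC X u v hX (by omega) (by omega) huv
  have hw : (0 : ℝ) ≤ (v : ℝ) - u := by linarith
  have hCC : C ≤ 2 * |C| := by
    have := le_abs_self C
    have := abs_nonneg C
    linarith
  refine ⟨h.1.trans (mul_le_mul_of_nonneg_right hCC hw), h.2.trans ?_, fun ha => ?_⟩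
  · refine mul_le_mul_of_nonneg_right ?_ hw
    have := mul_le_mul_of_nonneg_right hCC (Real.sqrt_nonneg (Real.log (Real.log X)))
    unfold numFactors
    unfold Pool.Agent.L7h19.IS.nf
    linarith
  · have h3 := h.1
    subst ha
    have hfil : (Icc u v).filter (fun t : ℤ => b.eval t ≠ 0) =
        (Icc u v).filter (fun t : ℤ =>
          b.eval t * ((0 : ℤ[X]).eval t ^ 2 - 4 * b.eval t) ≠ 0) := by
      refine filter_congr fun t _ => ?_
      rw [eval_zero]
      constructor
      · intro h4 h5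
        apply h4
        have h6 : b.eval t * b.eval t = 0 := by linarith
        exact mul_self_eq_zero.1 h6
      · intro h4 h5
        apply h4
        rw [h5, zero_mul]
    rw [hfil]
    have h4 : ∑ t ∈ (Icc u v).filter (fun t : ℤ =>
          b.eval t * ((0 : ℤ[X]).eval t ^ 2 - 4 * b.eval t) ≠ 0),
        (2 : ℝ) ^ (Module.finrank ℤ (E 0 (b.eval t)).toAffine.Point) ≤
        2 * ∑ t ∈ (Icc u v).filter (fun t : ℤ =>
          b.eval t * ((0 : ℤ[X]).eval t ^ 2 - 4 * b.eval t) ≠ 0),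
        (2 : ℝ) ^ ((Module.finrank ℤ (E ((0 : ℤ[X]).eval t) (b.eval t)).toAffine.Point : ℝ) -
          |(omega (b.eval t) : ℝ) - (omega ((0 : ℤ[X]).eval t ^ 2 - 4 * b.eval t) : ℝ)|) := by
      rw [mul_sum]
      refine sum_le_sum fun t ht => ?_
      have ht1 := (mem_filter.1 ht).2
      have ht2 : b.eval t ≠ 0 := (mul_ne_zero_iff.1 ht1).1
      rw [eval_zero]
      have e1 : (0 : ℤ) ^ 2 - 4 * b.eval t = -4 * b.eval t := by ring
      rw [e1]
      have e2 := omega_four _ ht2
      rw [Real.rpow_sub (by norm_num), Real.rpow_natCast]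
      have e3 : (2 : ℝ) ^ |(omega (b.eval t) : ℝ) - (omega (-4 * b.eval t) : ℝ)| ≤ 2 := by
        calc _ ≤ (2 : ℝ) ^ (1 : ℝ) := Real.rpow_le_rpow_of_exponent_le (by norm_num) e2
          _ = 2 := Real.rpow_one 2
      rw [← mul_div_assoc, le_div_iff₀ (Real.rpow_pos_of_pos (by norm_num) _), mul_comm]
      exact mul_le_mul_of_nonneg_right e3 (by positivity)
    refine h4.trans ?_
    have h5 : 2 * (C * ((v : ℝ) - u)) ≤ 2 * |C| * ((v : ℝ) - u) := by
      have := mul_le_mul_of_nonneg_right (le_abs_self C) hw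
      linarith
    exact (mul_le_mul_of_nonneg_left h3 (by norm_num)).trans h5

end Pool.Agent.L7h19.Old.TwoTorsionPointFirst
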