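import Mathlib
import Pool.Agent.L7h19.IS.All2
import Pool.Agent.L7h19.RP.AllParts
import Pool.Agent.L7h23.RP.StFree
import Pool.Agent.L7h50.UP.Up
import Pool.Agent.L7h56.IS.Des
import Pool.Agent.L7h60.IS.Tk
import Pool.Agent.L7h65.IS.Exp
import Pool.Agent.L7h65.IS.Exp2
import Pool.Agent.L7h89.IS.Rk

/-!
# The rank on average in polynomial families with a rational 2-torsion point, in short intervals

Let `a, b` be polynomials with integer coefficients such that `b (a² - 4 b)` is squarefree over `ℚ`,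
`E_t : y² = x (x² + a(t) x + b(t))`. For every `ε > 0`, over the integers `t` of any interval
`[u, v] ⊆ [-X, X]` of length at least `X ^ ε`,

* the average of `2 ^ (rank E_t - |ω(b(t)) - ω(a(t)² - 4 b(t))|)` is bounded;
* the average of `rank E_t` is at most `|n - n'| log log X + O(√(log log X))`, where `n` and `n'` are
  the numbers of the irreducible factors of `b` and of `a² - 4 b`.
-/

namespace Pool.Agent.L7h19.Old.TwoTorsionPointSquarefree

open Finset Polynomial

/-- the curve `y² = x (x² + A x + B)` over `ℚ` -/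
def E (A B : ℤ) : WeierstrassCurve ℚ := ⟨0, (A : ℚ), 0, (B : ℚ), 0⟩

/-- the number of the primes which divide the integer `n` -/
def omega (n : ℤ) : ℕ := n.natAbs.primeFactors.card

/-- the number of the irreducible factors of `g` over `ℚ` (with multiplicity) -/
noncomputable def numFactors (g : ℤ[X]) : ℕ :=
  (UniqueFactorizationMonoid.normalizedFactors (g.map (Int.castRingHom ℚ))).card

/-- The exponential and the first moment of the rank in the family `y² = x (x² + a(t) x + b(t))` over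
short intervals. -/
theorem result (a b : ℤ[X])
    (hab : Squarefree ((b * (a ^ 2 - 4 * b)).map (Int.castRingHom ℚ))) (ε : ℝ) (hε : 0 < ε) :
    ∃ C : ℝ, ∀ (X : ℕ) (u v : ℤ), 3 ≤ X → -(X : ℤ) ≤ u → v ≤ X → (X : ℝ) ^ ε ≤ (v : ℝ) - u →
      (∑ t ∈ (Icc u v).filter (fun t : ℤ => b.eval t * (a.eval t ^ 2 - 4 * b.eval t) ≠ 0),
        (2 : ℝ) ^ ((Module.finrank ℤ (E (a.eval t) (b.eval t)).toAffine.Point : ℝ) -
          |(omega (b.eval t) : ℝ) - (omega (a.eval t ^ 2 - 4 * b.eval t) : ℝ)|) ≤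
        C * ((v : ℝ) - u)) ∧
      (∑ t ∈ (Icc u v).filter (fun t : ℤ => b.eval t * (a.eval t ^ 2 - 4 * b.eval t) ≠ 0),
        (Module.finrank ℤ (E (a.eval t) (b.eval t)).toAffine.Point : ℝ) ≤
        (|(numFactors b : ℝ) - (numFactors (a ^ 2 - 4 * b) : ℝ)| * Real.log (Real.log X) +
          C * √(Real.log (Real.log X))) * ((v : ℝ) - u)) := by
  obtain ⟨C, hC⟩ := Pool.Agent.L7h19.IS.allI2
    (Pool.Agent.L7h89.IS.rk_of Pool.Agent.L7h56.IS.s_DES) Pool.Agent.L7h65.IS.s_EXP
    Pool.Agent.L7h65.IS.s_EXP2 Pool.Agent.L7h60.IS.s_TK Pool.Agent.L7h50.UP.stUp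
    Pool.Agent.L7h19.RP.parts.bw Pool.Agent.L7h23.RP.stFree a b hab ε hε
  refine ⟨C, fun X u v hX hu hv huv => ?_⟩
  have hXr : (1 : ℝ) ≤ X := by
    have : (3 : ℝ) ≤ X := by exact_mod_cast hX
    linarith
  have h1 : (1 : ℝ) ≤ (v : ℝ) - u := (Real.one_le_rpow hXr hε.le).trans huv
  have h2 : (1 : ℤ) ≤ v - u := by exact_mod_cast h1
  exact hC X u v hX (by omega) (by omega) huv

end Pool.Agent.L7h19.Old.TwoTorsionPointSquarefree
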